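import Pool.Agent.X169.WT.Glue
import Pool.Agent.Y44.SY.QB

/-!
Symplectic forms from continuous one-forms: the theorem with a smooth lower bound.
-/

set_option autoImplicit false

open Set Filter Topology MeasureTheory
open scoped Manifold ContDiff

noncomputable section

namespace Pool.Agent.X169.WT

open Pool.Agent.Y501.SY

theorem minpos {ι : Type} [Finite ι] (f : ι → ℝ) (hf : ∀ i, 0 < f i) :
    ∃ a : ℝ, 0 < a ∧ ∀ i, a ≤ f i := by
  rcases isEmpty_or_nonempty ι with h | h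
  · exact ⟨1, one_pos, fun i => (IsEmpty.false i).elim⟩
  · obtain ⟨i, hi⟩ := Finite.exists_min f
    exact ⟨f i, hf i, hi⟩

section

variable {d : ℕ} {X : Type} [TopologicalSpace X] [ChartedSpace (Y501.SY.E d) X]
  [IsManifold (𝓡 d) ∞ X]

/-- a smooth two-form with small degeneracies plus an exact form tames `J` -/
theorem nullpair [CompactSpace X] [T2Space X] {J : End d X} (hJ : IsAlmostComplex J)
    {m : ℕ} {Y : Type} [TopologicalSpace Y]
    [ChartedSpace (Y501.SY.E m) Y] [IsManifold (𝓡 m) ∞ Y] [T2Space Y] {f : X → Y}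
    (hf : ContMDiff (𝓡 d) (𝓡 m) ∞ f) {τ : Form d X 2} (hτ : IsSmooth τ)
    (hker : ∀ (x : X) (v : TangentSpace (𝓡 d) x), τ x ![v, J x v] ≤ 0 →
      mfderiv (𝓡 d) (𝓡 m) f x v = 0)
    (hthin : ∀ z : X, ¬ TamesAt τ J z →
      ThinAt τ J (connectedComponentIn ({x | ¬ TamesAt τ J x} ∩ f ⁻¹' {f z}) z) z) :
    ∃ (α : Form d X 1) (η : Form d X 2), IsSmooth α ∧ IsSmooth η ∧ IsD α η ∧ IsClosedForm η ∧
      ∀ x, TamesAt (τ + η) J x := by
  have hG := Pool.Agent.Y484.SY.t_GEN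
  have hP := Pool.Agent.Y455.SY.t_PERT
  have hN := Pool.Agent.Y455.SY.t_NULL
  have hPl := Pool.Agent.Y925.SY.t_PLANAR
  have hpos : ∀ (x : X) (v : TangentSpace (𝓡 d) x), 0 ≤ τ x ![v, J x v] :=
    int2 hJ hτ hf hker hthin
  have hDc : IsClosed {x | ¬ TamesAt τ J x} := by
    rw [← isOpen_compl_iff, isOpen_iff_eventually]
    intro x hx
    have hx' : TamesAt τ J x := by
      by_contra h; exact hx h
    filter_upwards [TamesAt.nhds hP hJ hτ hx'] with y hy h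
    exact h hy
  have hD : IsCompact {x | ¬ TamesAt τ J x} := hDc.isCompact
  obtain ⟨α, η, hpair, hη⟩ := glue hJ τ hD
    (by
      intro x v hv h0 ht
      have := ht v hv
      rw [h0] at this
      exact lt_irrefl _ this)
    (by
      intro z hz
      have hzF : z ∈ {x | ¬ TamesAt τ J x} ∩ f ⁻¹' {f z} := ⟨hz, rfl⟩
      have hF : IsCompact ({x | ¬ TamesAt τ J x} ∩ f ⁻¹' {f z}) :=
        hD.inter_right (isClosed_singleton.preimage hf.continuous)
      obtain ⟨α, η, hpair, hη⟩ := coverN hG hP hN hPl hJ hτ hpos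
        (compact_comp hF hzF) (by
          intro w hw
          have hwF := connectedComponentIn_subset _ _ hw
          have h1 := hthin w hwF.1
          have h2 : f w = f z := hwF.2
          rw [h2] at h1
          rw [connectedComponentIn_eq hw]
          exact h1)
      have hU : IsOpen {x | ∀ᶠ y in 𝓝 x, NullPos τ J η y} := isOpen_setOfPred_eventually_nhds
      obtain ⟨u, hu, hu0, huz, huU, hud⟩ := sepfun hf hD hz hU
        (fun x hx => NullPos.nhds hP hN hJ hτ (hpair.props hG).2.1 hpos (hη x hx))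
      refine ⟨u, α, η, hu, fun x hx v hv => hud x hx v (hker x v hv.le), hu0, huz, hpair, ?_⟩
      intro x hx hux v hv h0
      exact (huU x hx hux).self_of_nhds v hv h0)
  obtain ⟨hα, hηs, hαη, hηc⟩ := hpair.props hG
  obtain ⟨ε, hε, ht⟩ := unif isCompact_univ
    (fun ε y => ∀ ε' : ℝ, 0 < ε' → ε' ≤ ε → TamesAt (τ + ε' • η) J y)
    (fun ε ε' y hle hp ε'' h0 h1 => hp ε'' h0 (h1.trans hle))
    (fun x _ => hN d X J hJ τ η hτ hηs hpos x (hη x))
  refine ⟨ε • α, ε • η, hα.smul ε, hηs.smul ε, hαη.smul ε, ?_,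
    fun x => ht x (mem_univ x) ε hε le_rfl⟩
  have h1 := hηc.smul ε
  have h2 : ε • (0 : Form d X 3) = 0 := smul_zero ε
  unfold IsClosedForm
  rwa [h2] at h1

/-- `σ - τ + dα` is nonnegative on `(v, J v)` in the sense of distributions, on the open set `U`
in the chart at `x₀` -/
def WeakAt (σ τ : Form d X 2) (α : Form d X 1) (J : End d X) (x₀ : X)
    (U : Set (Y501.SY.E d)) : Prop :=
  ∀ φ : Y501.SY.E d → ℝ, ContDiff ℝ ∞ φ → HasCompactSupport φ → tsupport φ ⊆ U →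
    (∀ y, 0 ≤ φ y) → ∀ p ∈ U, ∀ v : Y501.SY.E d,
    0 ≤ ∫ y, (φ y * (pb (chartAt (Y501.SY.E d) x₀).symm σ y ![v, inChart J x₀ p v] -
          pb (chartAt (Y501.SY.E d) x₀).symm τ y ![v, inChart J x₀ p v]) +
        (fderiv ℝ φ y (inChart J x₀ p v) * pb (chartAt (Y501.SY.E d) x₀).symm α y ![v] -
          fderiv ℝ φ y v *
            pb (chartAt (Y501.SY.E d) x₀).symm α y ![inChart J x₀ p v]))

theorem weakMain [CompactSpace X] [T2Space X] {J : End d X} (hJ : IsAlmostComplex J)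
    {σ τ ζ : Form d X 2} (hσ : IsSmooth σ) (hτ : IsSmooth τ) {α : Form d X 1} (hα : ContForm α)
    (hweak : ∀ x₀ : X, ∃ U : Set (Y501.SY.E d), IsOpen U ∧ chartAt (Y501.SY.E d) x₀ x₀ ∈ U ∧
      U ⊆ (chartAt (Y501.SY.E d) x₀).target ∧ WeakAt σ τ α J x₀ U)
    (hζ : IsSmooth ζ) (htame : ∀ x, TamesAt (τ + ζ) J x) :
    ∃ (β : Form d X 1) (η : Form d X 2), Pair β η ∧ ∀ x, TamesAt (σ + η + ζ) J x := by
  classical
  choose U hUo hUx hUt hUw using hweak
  have hOo : ∀ x₀ : X, IsOpen ((chartAt (Y501.SY.E d) x₀).source ∩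
      chartAt (Y501.SY.E d) x₀ ⁻¹' U x₀) := fun x₀ =>
    (chartAt (Y501.SY.E d) x₀).isOpen_inter_preimage (hUo x₀)
  obtain ⟨t, htc⟩ := isCompact_univ.elim_finite_subcover
    (fun x₀ : X => (chartAt (Y501.SY.E d) x₀).source ∩ chartAt (Y501.SY.E d) x₀ ⁻¹' U x₀) hOo
    (fun x _ => mem_iUnion.2 ⟨x, mem_chart_source _ x, hUx x⟩)
  let c : ↥t → X := fun i => i
  obtain ⟨f, hf⟩ := SmoothPartitionOfUnity.exists_isSubordinate (𝓡 d) isClosed_univ
    (fun i : ↥t => (chartAt (Y501.SY.E d) (c i)).source ∩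
      chartAt (Y501.SY.E d) (c i) ⁻¹' U (c i)) (fun i => hOo (c i))
    (fun x hx => by
      obtain ⟨i, hi, hx'⟩ := mem_iUnion₂.1 (htc hx)
      exact mem_iUnion.2 ⟨⟨i, hi⟩, hx'⟩)
  let χ : ↥t → X → ℝ := fun i => f i
  have hχs : ∀ i, SmoothFun (d := d) (χ i) := fun i => (f i).contMDiff
  have hχ0 : ∀ i x, 0 ≤ χ i x := fun i x => f.nonneg i x
  have hχ1 : ∀ x, ∑ i, χ i x = 1 := by
    intro x
    have := f.sum_eq_one (mem_univ x)
    rwa [finsum_eq_sum_of_fintype] at this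
  have hχO : ∀ i, tsupport (χ i) ⊆ (chartAt (Y501.SY.E d) (c i)).source ∩
      chartAt (Y501.SY.E d) (c i) ⁻¹' U (c i) := hf
  have hχt : ∀ i, tsupport (χ i) ⊆ (chartAt (Y501.SY.E d) (c i)).source := fun i =>
    (hχO i).trans inter_subset_left
  have hS : ∀ i, IsCompact (chartAt (Y501.SY.E d) (c i) '' tsupport (χ i)) := fun i =>
    ((isClosed_tsupport (χ i)).isCompact).image_of_continuousOn
      ((chartAt (Y501.SY.E d) (c i)).continuousOn.mono (hχt i))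
  have hSt : ∀ i, chartAt (Y501.SY.E d) (c i) '' tsupport (χ i) ⊆
      (chartAt (Y501.SY.E d) (c i)).target := by
    rintro i _ ⟨x, hx, rfl⟩
    exact (chartAt (Y501.SY.E d) (c i)).map_source (hχt i hx)
  -- the lower bound of the taming form
  have hρs : IsSmooth (τ + ζ) := hτ.add hζ
  have hlow : ∀ i, ∃ a : ℝ, 0 < a ∧ ∀ x ∈ tsupport (χ i), ∀ v : Y501.SY.E d,
      a * ‖D (c i) x v‖ ^ 2 ≤ ((τ + ζ) x ![v, J x v] : ℝ) := by
    intro i
    obtain ⟨a, ha, h⟩ := (Pool.Agent.Y44.SY.t_QB d X J hJ (τ + ζ) hρs (c i) _ (hS i) (hSt i)).2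
      (fun p _ => htame _)
    refine ⟨a, ha, fun x hx v => ?_⟩
    have h1 := h _ ⟨x, hx, rfl⟩ (D (c i) x v)
    have h2 := pb2 (τ + ζ) (hχt i hx) v (J x v)
    rw [J_D J (hχt i hx)] at h1
    exact h1.trans_eq h2.symm
  choose a ha0 ha using hlow
  obtain ⟨a', ha'0, ha'⟩ := minpos a ha0
  -- the glued form
  let σ' : Form d X 2 := σ + (-1 : ℝ) • τ
  have hσ' : IsSmooth σ' := hσ.add (hτ.smul (-1))
  have hWk : ∀ i : ↥t, Wk (U (c i)) (pb (chartAt (Y501.SY.E d) (c i)).symm σ')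
      (af α (c i)) (inChart J (c i)) 0 := by
    intro i φ h1 h2 h3 h4 p hp v
    have h5 := hUw (c i) φ h1 h2 h3 h4 p hp v
    rw [zero_mul, zero_mul]
    refine h5.trans_eq ?_
    refine integral_congr_ae (Eventually.of_forall fun y => ?_)
    simp only
    rw [af_apply, af_apply]
    have h6 : ∀ u w : Y501.SY.E d, pb (chartAt (Y501.SY.E d) (c i)).symm σ' y ![u, w] =
        pb (chartAt (Y501.SY.E d) (c i)).symm σ y ![u, w] -
          pb (chartAt (Y501.SY.E d) (c i)).symm τ y ![u, w] := by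
      intro u w
      have h7 : pb (chartAt (Y501.SY.E d) (c i)).symm σ' y ![u, w] =
        pb (chartAt (Y501.SY.E d) (c i)).symm σ y ![u, w] +
          (-1) * pb (chartAt (Y501.SY.E d) (c i)).symm τ y ![u, w] := rfl
      rw [h7]; ring
    rw [h6]
  obtain ⟨β, η, hpair, hη⟩ := glueForms hJ hσ' hα c (fun i => U (c i)) (fun i => hUo (c i))
    (fun i => hUt (c i)) (fun _ => 0) hWk χ hχs hχ0 hχ1 hχO (half_pos ha'0)
  refine ⟨β, η, hpair, fun x v hv => ?_⟩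
  have h1 := hη x v
  set q : ℝ := ∑ k, χ k x * ‖D (c k) x v‖ ^ 2 with hq
  have hq0 : 0 < q := by
    obtain ⟨k, hk⟩ : ∃ k, 0 < χ k x := by
      by_contra h
      push Not at h
      have h1 : ∑ i, χ i x ≤ 0 := Finset.sum_nonpos fun i _ => h i
      rw [hχ1] at h1
      linarith
    have h2 : 0 < χ k x * ‖D (c k) x v‖ ^ 2 := by
      have := D_ne (hχt k (subset_tsupport _ hk.ne')) (v := v) hv
      have := norm_pos_iff.2 this
      positivity
    exact h2.trans_le (Finset.single_le_sum (f := fun k => χ k x * ‖D (c k) x v‖ ^ 2)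
      (fun j _ => mul_nonneg (hχ0 j x) (sq_nonneg _)) (Finset.mem_univ k))
  have h2 : a' * q ≤ ((τ + ζ) x ![v, J x v] : ℝ) := by
    have e1 : ((τ + ζ) x ![v, J x v] : ℝ) = ∑ i, χ i x * ((τ + ζ) x ![v, J x v] : ℝ) := by
      rw [← Finset.sum_mul, hχ1, one_mul]
    rw [e1, hq, Finset.mul_sum]
    refine Finset.sum_le_sum fun i _ => ?_
    by_cases hx : x ∈ tsupport (χ i)
    · have e2 := ha i x hx v
      have e3 : a' * ‖D (c i) x v‖ ^ 2 ≤ a i * ‖D (c i) x v‖ ^ 2 :=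
        mul_le_mul_of_nonneg_right (ha' i) (sq_nonneg _)
      have e4 := mul_le_mul_of_nonneg_left (e3.trans e2) (hχ0 i x)
      linarith
    · rw [image_eq_zero_of_notMem_tsupport hx]; simp
  have h3 : ∑ i : ↥t, χ i x * ((0:ℝ) * ‖D (c i) x v‖ ^ 2) = 0 :=
    Finset.sum_eq_zero fun i _ => by ring
  rw [h3, zero_sub] at h1
  have h4 : ((σ + η + ζ) x ![v, J x v] : ℝ) =
      ((σ' + η) x ![v, J x v] : ℝ) + ((τ + ζ) x ![v, J x v] : ℝ) := by
    have e1 : ((σ + η + ζ) x ![v, J x v] : ℝ) =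
      σ x ![v, J x v] + η x ![v, J x v] + ζ x ![v, J x v] := rfl
    have e2 : ((σ' + η) x ![v, J x v] : ℝ) =
      σ x ![v, J x v] + (-1) * τ x ![v, J x v] + η x ![v, J x v] := rfl
    have e3 : ((τ + ζ) x ![v, J x v] : ℝ) = τ x ![v, J x v] + ζ x ![v, J x v] := rfl
    rw [e1, e2, e3]; ring
  have h5 : 0 < (a' - a' / 2) * q := by
    have : 0 < a' - a' / 2 := by linarith
    positivity
  refine lt_of_lt_of_eq ?_ h4.symm
  nlinarith [h1, h2, h5]

theorem weakAll [CompactSpace X] [T2Space X] {J : End d X} (hJ : IsAlmostComplex J)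
    {m : ℕ} {Y : Type} [TopologicalSpace Y]
    [ChartedSpace (Y501.SY.E m) Y] [IsManifold (𝓡 m) ∞ Y] [T2Space Y] {f : X → Y}
    (hf : ContMDiff (𝓡 d) (𝓡 m) ∞ f)
    {σ τ : Form d X 2} (hσ : IsSmooth σ) (hσc : IsClosedForm σ) (hτ : IsSmooth τ)
    {α : Form d X 1} (hα : ContForm α)
    (hweak : ∀ x₀ : X, ∃ U : Set (Y501.SY.E d), IsOpen U ∧ chartAt (Y501.SY.E d) x₀ x₀ ∈ U ∧
      U ⊆ (chartAt (Y501.SY.E d) x₀).target ∧ WeakAt σ τ α J x₀ U)
    (hker : ∀ (x : X) (v : TangentSpace (𝓡 d) x), τ x ![v, J x v] ≤ 0 →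
      mfderiv (𝓡 d) (𝓡 m) f x v = 0)
    (hthin : ∀ z : X, ¬ TamesAt τ J z →
      ThinAt τ J (connectedComponentIn ({x | ¬ TamesAt τ J x} ∩ f ⁻¹' {f z}) z) z) :
    ∃ (β : Form d X 1) (η : Form d X 2), IsSmooth β ∧ IsSmooth η ∧ IsD β η ∧
      IsSmooth (σ + η) ∧ IsClosedForm (σ + η) ∧ ∀ x, TamesAt (σ + η) J x := by
  obtain ⟨β₁, η₁, a1, a2, a3, a4, a5⟩ := nullpair hJ hf hτ hker hthin
  obtain ⟨β₂, η₂, b1, b2⟩ := weakMain hJ hσ hτ hα hweak a2 a5
  obtain ⟨c1, c2, c3, c4⟩ := b1.props Pool.Agent.Y484.SY.t_GEN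
  have hs : IsSmooth (η₂ + η₁) := c2.add a2
  refine ⟨β₂ + β₁, η₂ + η₁, c1.add a1, hs, c3.add a3 c1 a1, hσ.add hs, ?_, fun x => ?_⟩
  · have h1 := hσc.add (c4.add a4 c2 a2) hσ hs
    have h2 : (0 : Form d X 3) + (0 + 0) = 0 := by rw [add_zero, add_zero]
    rw [h2] at h1
    exact h1
  · have h3 := b2 x
    have h4 : (σ + η₂ + η₁ : Form d X 2) = σ + (η₂ + η₁) := add_assoc _ _ _
    rw [h4] at h3
    exact h3

end

end Pool.Agent.X169.WT
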