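import Pool.Agent.X169.WT.Pub
import Pool.Agent.X169.WT.Fin
import Pool.Agent.Y501.SY.Bridge

/-!
The regularisation theorem with the public definitions.
-/

set_option autoImplicit false

open Set Filter Topology MeasureTheory
open scoped Manifold ContDiff

noncomputable section

namespace Pool.Agent.X169.WTP

open Pool.Agent.Y501.SYP

section

variable {d : ℕ} {X : Type} [TopologicalSpace X] [ChartedSpace (ES d) X]

attribute [local instance] cs mf

theorem smallAt_of {J : End (ES d) X} {τ : Form (ES d) X 2} {C : Set X} {z : X}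
    (h : SmallAt J C z (fun v => qd τ J z v ≤ 0)) :
    Y501.SY.SmallAt (d := d) (X := X) τ J C z := by
  rcases h with h | h | h
  · exact Or.inl h
  · exact Or.inr (Or.inl h)
  · refine Or.inr (Or.inr ?_)
    obtain ⟨n, a, b, hab, hpos⟩ := h
    choose N hN hN0 using fun i => (hab i).null
    refine ⟨n, a, b, ⋂ i, N i, Filter.iInter_mem.2 hN, fun i => (hab i).smooth_a,
      fun i => (hab i).smooth_b, fun i => ?_, fun v hv h1 => ?_⟩
    · exact measure_mono_null (image_mono (inter_subset_inter_right _ (iInter_subset _ _)))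
        (hN0 i)
    · have h3 := hpos v hv h1
      have e := Y501.SY.sum_apply2 (d := d) (X := X) Finset.univ
        (fun i => Y501.SY.dfdg (d := d) (X := X) (a i) (b i)) z ![v, J z v]
      refine lt_of_lt_of_eq h3 (Eq.trans ?_ e.symm)
      exact Finset.sum_congr rfl fun i _ =>
        (Y501.SY.dfdg_apply (d := d) (X := X) (a i) (b i) z v (J z v)).symm

theorem weakTaming {m : ℕ} {Y : Type} [TopologicalSpace Y] [ChartedSpace (ES m) Y]
    [IsManifold 𝓘(ℝ, ES d) ∞ X] [CompactSpace X] [T2Space X]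
    [IsManifold 𝓘(ℝ, ES m) ∞ Y] [T2Space Y]
    (J : End (ES d) X) (hJ : IsAlmostComplex J)
    (f : X → Y) (hf : ContMDiff 𝓘(ℝ, ES d) 𝓘(ℝ, ES m) ∞ f)
    (σ τ : Form (ES d) X 2) (hσ : IsSmooth σ) (hσc : IsClosedForm σ) (hτ : IsSmooth τ)
    (α : Form (ES d) X 1) (hα : IsContinuousForm α) (hweak : WeaklyAbove σ τ α J)
    (hker : ∀ (x : X) (v : TangentSpace 𝓘(ℝ, ES d) x), qd τ J x v ≤ 0 →
      mfderiv 𝓘(ℝ, ES d) 𝓘(ℝ, ES m) f x v = 0)
    (hsmall : SmallOnFibres τ J f) :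
    ∃ (β : Form (ES d) X 1) (η : Form (ES d) X 2), IsSmooth β ∧ IsSmooth η ∧ IsD β η ∧
      IsTamingSymplectic (addF σ η) J := by
  have hJ' := ac_of J hJ
  have hσ' := (smooth_iff σ).1 hσ
  have hτ' := (smooth_iff τ).1 hτ
  obtain ⟨β, η, c1, c2, c3, c4, c5, c6⟩ := X169.WT.weakAll (d := d) (X := X) (m := m) (Y := Y)
    hJ' (f := f) hf hσ' ((closed_iff σ).1 hσc) hτ' (α := α) (fun i v => hα i v)
    (fun x₀ => by
      obtain ⟨U, h1, h2, h3, h4⟩ := hweak x₀
      exact ⟨U, h1, h2, h3, fun φ p1 p2 p3 p4 p hp v => h4 φ ⟨p1, p2, p3, p4⟩ p hp v⟩) hker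
    (fun z hz => (smallAt_of (hsmall z hz)).thinAt hJ')
  exact ⟨β, η, (smooth_iff _).2 c1, (smooth_iff _).2 c2, (isD_iff _ _).2 c3,
    symp_of ((smooth_iff _).2 c4) ((closed_iff _).2 c5) c6⟩

end

end Pool.Agent.X169.WTP
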