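import Pool.Agent.X169.WT.Bri
import Pool.Agent.X24.SY.InClass

/-!
The regularisation theorem: prescribed class and homotopy class, and nearby classes.
-/

set_option autoImplicit false

open Set Filter Topology MeasureTheory
open scoped Manifold ContDiff

noncomputable section

namespace Pool.Agent.X169.WTP

open Pool.Agent.Y501.SYP

section

variable {d : ℕ} {X : Type} [TopologicalSpace X] [ChartedSpace (ES d) X]

/-- the form `σ + ∑ sᵢ κᵢ` -/
def perturb {k : ℕ} (σ : Form (ES d) X 2) (κ : Fin k → Form (ES d) X 2) (s : Fin k → ℝ) :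
    Form (ES d) X 2 := fun x => σ x + ∑ i, s i • κ i x

attribute [local instance] cs mf

theorem weakTamingInClass {m k : ℕ} {Y : Type} [TopologicalSpace Y] [ChartedSpace (ES m) Y]
    [IsManifold 𝓘(ℝ, ES d) ∞ X] [CompactSpace X] [T2Space X]
    [IsManifold 𝓘(ℝ, ES m) ∞ Y] [T2Space Y]
    (J : End (ES d) X) (hJ : IsAlmostComplex J)
    (f : X → Y) (hf : ContMDiff 𝓘(ℝ, ES d) 𝓘(ℝ, ES m) ∞ f)
    (σ τ : Form (ES d) X 2) (hσ : IsSmooth σ) (hσc : IsClosedForm σ) (hτ : IsSmooth τ)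
    (κ : Fin k → Form (ES d) X 2) (hκ : ∀ i, IsSmooth (κ i)) (hκc : ∀ i, IsClosedForm (κ i))
    (α : Form (ES d) X 1) (hα : IsContinuousForm α) (hweak : WeaklyAbove σ τ α J)
    (hker : ∀ (x : X) (v : TangentSpace 𝓘(ℝ, ES d) x), qd τ J x v ≤ 0 →
      mfderiv 𝓘(ℝ, ES d) 𝓘(ℝ, ES m) f x v = 0)
    (hsmall : SmallOnFibres τ J f) :
    ∃ (β : Form (ES d) X 1) (η : Form (ES d) X 2), IsSmooth β ∧ IsSmooth η ∧ IsD β η ∧
      ∃ ε : ℝ, 0 < ε ∧ ∀ s : Fin k → ℝ, (∀ i, |s i| ≤ ε) →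
        IsTamingSymplectic (addF (perturb σ κ s) η) J ∧
        ∀ ρ : Form (ES d) X 2, (∀ x, TamesAt ρ J x) → ∀ u : ℝ, 0 ≤ u → u ≤ 1 →
          Nondeg (seg ρ (addF (perturb σ κ s) η) u) := by
  obtain ⟨β, η, h1, h2, h3, hT⟩ := weakTaming J hJ f hf σ τ hσ hσc hτ α hα hweak hker hsmall
  obtain ⟨ε, hε, hall⟩ := Y501.SY.unif (X := X) isCompact_univ
    (fun ε y => ∀ s : Fin k → ℝ, (∀ i, |s i| ≤ ε) →
      Y501.SY.TamesAt (d := d) (X := X) (addF σ η + ∑ i, s i • κ i) J y)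
    (fun ε ε' y h hp s hs => hp s fun i => (hs i).trans h)
    (fun x _ => Pool.Agent.Y455.SY.t_PERT d X J (ac_of J hJ) (Fin k) (addF σ η) κ
      ((smooth_iff _).1 hT.smooth) (fun i => (smooth_iff _).1 (hκ i)) x (hT.tames x))
  refine ⟨β, η, h1, h2, h3, ε, hε, fun s hs => ?_⟩
  have heq : addF (perturb σ κ s) η = addF σ η + ∑ i, s i • κ i := by
    funext x
    simp only [addF, perturb, Pi.add_apply, Pi.smul_apply, Finset.sum_apply]
    abel
  have hsm : Y501.SY.IsSmooth (d := d) (X := X) (∑ i, s i • κ i) :=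
    Y501.SY.IsSmooth.sum Finset.univ fun i _ =>
      Y501.SY.IsSmooth.smul ((smooth_iff _).1 (hκ i)) (s i)
  have hcl : Y501.SY.IsClosedForm (d := d) (X := X) (∑ i, s i • κ i) :=
    (X24.SYC.closed_sum s κ (fun i => (smooth_iff _).1 (hκ i)) (fun i => (closed_iff _).1 (hκc i))
      Finset.univ).2
  have htame : ∀ x, TamesAt (addF (perturb σ κ s) η) J x := by
    intro x
    rw [heq]
    exact hall x (mem_univ x) s hs
  refine ⟨?_, fun ρ hρ u hu0 hu1 => X24.SYC.seg_nondeg hρ htame u hu0 hu1⟩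
  refine symp_of ?_ ?_ htame
  · rw [heq]
    exact (smooth_iff _).2 (Y501.SY.IsSmooth.add ((smooth_iff _).1 hT.smooth) hsm)
  · rw [heq]
    have e3 := Y501.SY.IsD.add ((closed_iff _).1 hT.closed) hcl ((smooth_iff _).1 hT.smooth) hsm
    have e4 : (0 : Y501.SY.Form d X 3) + 0 = 0 := add_zero _
    rw [e4] at e3
    exact (closed_iff _).2 e3

end

end Pool.Agent.X169.WTP
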