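import Mathlib

/-!
Mollification of a continuous one-form `a` on an open subset of Euclidean space for which
`s + da` is bounded below on `(v, J v)` in the sense of distributions.
-/

set_option autoImplicit false

open Set Filter Topology MeasureTheory Metric
open scoped ContDiff Convolution

noncomputable section

namespace Pool.Agent.X169.WT

abbrev E (d : ℕ) := EuclideanSpace ℝ (Fin d)

variable {d : ℕ}

/-- the weak inequality -/
def Wk (U : Set (E d)) (s : E d → (E d) [⋀^Fin 2]→L[ℝ] ℝ) (a : E d → (E d →L[ℝ] ℝ))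
    (Jm : E d → (E d →L[ℝ] E d)) (c : ℝ) : Prop :=
  ∀ φ : E d → ℝ, ContDiff ℝ ∞ φ → HasCompactSupport φ → tsupport φ ⊆ U → (∀ y, 0 ≤ φ y) →
    ∀ p ∈ U, ∀ v : E d, c * ‖v‖ ^ 2 * ∫ y, φ y ≤
      ∫ y, (φ y * s y ![v, Jm p v] +
        (fderiv ℝ φ y (Jm p v) * a y v - fderiv ℝ φ y v * a y (Jm p v)))

theorem alt_bound (η : (E d) [⋀^Fin 2]→L[ℝ] ℝ) (v w : E d) : |η ![v, w]| ≤ ‖η‖ * ‖v‖ * ‖w‖ := by
  have h := η.le_opNorm ![v, w]
  rw [Fin.prod_univ_two] at h
  simpa [mul_assoc] using h

/-- a uniform modulus near a compact set -/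
theorem unifc {F : Type} [PseudoMetricSpace F] {U S : Set (E d)} (hU : IsOpen U)
    (hS : IsCompact S) (hSU : S ⊆ U)
    (f : E d → F) (hf : ContinuousOn f U) (ε : ℝ) (hε : 0 < ε) :
    ∃ r : ℝ, 0 < r ∧ ∀ p ∈ S, ∀ y, dist y p < r → y ∈ U ∧ dist (f y) (f p) < ε := by
  have h1 : ∀ p ∈ S, ∃ r : ℝ, 0 < r ∧ ∀ᶠ q in 𝓝 p, ∀ y, dist y q < r →
      y ∈ U ∧ q ∈ U ∧ dist (f y) (f q) < ε := by
    intro p hp
    have hpU := hU.mem_nhds (hSU hp)
    have h2 : ∀ᶠ y in 𝓝 p, y ∈ U ∧ dist (f y) (f p) < ε / 2 :=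
      (eventually_mem_set.2 hpU).and ((hf.continuousAt hpU).eventually (Metric.ball_mem_nhds _ (half_pos hε)))
    obtain ⟨R, hR, hb⟩ := Metric.eventually_nhds_iff.1 h2
    refine ⟨R / 2, half_pos hR, ?_⟩
    filter_upwards [Metric.ball_mem_nhds p (half_pos hR)] with q hq y hy
    have e1 : dist y p < R := by
      have := dist_triangle y q p
      have hq' : dist q p < R / 2 := hq
      linarith
    have e2 : dist q p < R := lt_trans hq (by linarith)
    refine ⟨(hb e1).1, (hb e2).1, ?_⟩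
    have := dist_triangle_right (f y) (f q) (f p)
    have h3 := (hb e1).2
    have h4 := (hb e2).2
    linarith
  have key : ∃ r : ℝ, 0 < r ∧ ∀ q ∈ S, ∀ y, dist y q < r → y ∈ U ∧ q ∈ U ∧ dist (f y) (f q) < ε := by
    refine hS.induction_on (p := fun T => ∃ r : ℝ, 0 < r ∧ ∀ q ∈ T, ∀ y, dist y q < r →
      y ∈ U ∧ q ∈ U ∧ dist (f y) (f q) < ε) ?_ ?_ ?_ ?_
    · exact ⟨1, one_pos, fun y hy => absurd hy (notMem_empty y)⟩
    · rintro s t hst ⟨r, hr, hp⟩
      exact ⟨r, hr, fun y hy => hp y (hst hy)⟩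
    · rintro s t ⟨r, hr, hp⟩ ⟨r', hr', hp'⟩
      refine ⟨min r r', lt_min hr hr', ?_⟩
      rintro q (hq | hq) y hy
      · exact hp q hq y (hy.trans_le (min_le_left _ _))
      · exact hp' q hq y (hy.trans_le (min_le_right _ _))
    · intro p hp
      obtain ⟨r, hr, h⟩ := h1 p hp
      exact ⟨_, mem_nhdsWithin_of_mem_nhds h, r, hr, fun q hq => hq⟩
  obtain ⟨r, hr, h⟩ := key
  exact ⟨r, hr, fun p hp y hy => ⟨(h p hp y hy).1, (h p hp y hy).2.2⟩⟩

/-- the derivative of a mollification -/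
theorem conv_der {F : Type} [NormedAddCommGroup F] [NormedSpace ℝ F] [CompleteSpace F]
    {ρ : E d → ℝ} {g : E d → F} (hρs : ContDiff ℝ ∞ ρ) (hρc : HasCompactSupport ρ)
    (hg : LocallyIntegrable g volume) (p u : E d) :
    Integrable (fun y => fderiv ℝ ρ (p - y) u • g y) volume ∧
    fderiv ℝ (ρ ⋆[ContinuousLinearMap.lsmul ℝ ℝ, volume] g) p u =
      ∫ y, fderiv ℝ ρ (p - y) u • g y := by
  have hcd : HasCompactSupport (fderiv ℝ ρ) := hρc.fderiv ℝ
  have hcc : Continuous (fderiv ℝ ρ) := hρs.continuous_fderiv (by simp)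
  have e1 := hρc.hasFDerivAt_convolution_left (ContinuousLinearMap.lsmul ℝ ℝ : ℝ →L[ℝ] F →L[ℝ] F)
    (hρs.of_le (by simp)) hg p
  have hex : Integrable (fun t => ((ContinuousLinearMap.lsmul ℝ ℝ : ℝ →L[ℝ] F →L[ℝ] F).precompL
      (E d)) (fderiv ℝ ρ t) (g (p - t))) volume :=
    HasCompactSupport.convolutionExists_left _ hcd hcc hg p
  have i1 := ContinuousLinearMap.integral_apply hex u
  have hex2 := hex.apply_continuousLinearMap u
  have hex3 : Integrable (fun t => fderiv ℝ ρ t u • g (p - t)) volume := hex2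
  have hex4 : Integrable (fun y => fderiv ℝ ρ (p - y) u • g y) volume := by
    have := (integrable_comp_sub_left (fun t => fderiv ℝ ρ t u • g (p - t)) p).2 hex3
    simpa using this
  refine ⟨hex4, ?_⟩
  rw [e1.fderiv]
  have e2 : ((fderiv ℝ ρ ⋆[(ContinuousLinearMap.lsmul ℝ ℝ : ℝ →L[ℝ] F →L[ℝ] F).precompL (E d),
      volume] g) p) u = ∫ t, fderiv ℝ ρ t u • g (p - t) := i1
  rw [e2]
  have e3 := integral_sub_left_eq_self (fun t => fderiv ℝ ρ t u • g (p - t)) volume p
  rw [← e3]
  refine integral_congr_ae (Eventually.of_forall fun y => ?_)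
  simp

theorem moll {U S : Set (E d)} (hU : IsOpen U) (hS : IsCompact S) (hSU : S ⊆ U)
    {s : E d → (E d) [⋀^Fin 2]→L[ℝ] ℝ} (hs : ContinuousOn s U)
    {a : E d → (E d →L[ℝ] ℝ)} (ha : ContinuousOn a U)
    {Jm : E d → (E d →L[ℝ] E d)} (hJ : ContinuousOn Jm U) {c : ℝ} (hW : Wk U s a Jm c)
    {ε : ℝ} (hε : 0 < ε) :
    ∃ A : E d → (E d →L[ℝ] ℝ), ContDiff ℝ ∞ A ∧ (∀ p ∈ S, ‖A p - a p‖ ≤ ε) ∧
      ∀ p ∈ S, ∀ v : E d, (c - ε) * ‖v‖ ^ 2 ≤ s p ![v, Jm p v] +
        (fderiv ℝ A p v (Jm p v) - fderiv ℝ A p (Jm p v) v) := by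
  classical
  -- a bound for J
  obtain ⟨B, hB⟩ := hS.exists_bound_of_continuousOn (hJ.mono hSU)
  set B' : ℝ := |B| + 1 with hB'
  have hB'0 : 0 < B' := by positivity
  have hJB : ∀ p ∈ S, ∀ v, ‖Jm p v‖ ≤ B' * ‖v‖ := fun p hp v =>
    ((Jm p).le_opNorm v).trans (mul_le_mul_of_nonneg_right
      ((hB p hp).trans ((le_abs_self B).trans (by linarith))) (norm_nonneg _))
  obtain ⟨r1, hr1, h1⟩ := unifc hU hS hSU a ha ε hε
  obtain ⟨r2, hr2, h2⟩ := unifc hU hS hSU s hs (ε / B') (by positivity)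
  obtain ⟨δ, hδ, hδU⟩ := hS.exists_cthickening_subset_open hU hSU
  set K : Set (E d) := cthickening δ S with hK
  have hKc : IsCompact K := hS.cthickening
  set at' : E d → (E d →L[ℝ] ℝ) := K.indicator a with hat
  have hli : LocallyIntegrable at' volume :=
    (((ha.mono hδU).integrableOn_compact hKc).integrable_indicator
      hKc.measurableSet).locallyIntegrable
  set r : ℝ := min (min r1 r2) δ / 2 with hr
  have hr0 : 0 < r := by positivity
  have hrr1 : r < r1 := by
    have : min (min r1 r2) δ ≤ r1 := (min_le_left _ _).trans (min_le_left _ _)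
    have h0 : 0 < min (min r1 r2) δ := by positivity
    rw [hr]; linarith
  have hrr2 : r < r2 := by
    have : min (min r1 r2) δ ≤ r2 := (min_le_left _ _).trans (min_le_right _ _)
    have h0 : 0 < min (min r1 r2) δ := by positivity
    rw [hr]; linarith
  have hrδ : r < δ := by
    have : min (min r1 r2) δ ≤ δ := min_le_right _ _
    have h0 : 0 < min (min r1 r2) δ := by positivity
    rw [hr]; linarith
  let b : ContDiffBump (0 : E d) := ⟨r / 2, r, half_pos hr0, half_lt_self hr0⟩
  set ρ : E d → ℝ := b.normed volume with hρ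
  have hρs : ContDiff ℝ ∞ ρ := b.contDiff_normed
  have hρc : HasCompactSupport ρ := b.hasCompactSupport_normed
  have hρ0 : ∀ x, 0 ≤ ρ x := fun x => b.nonneg_normed x
  have hρi : ∫ x, ρ x = 1 := b.integral_normed
  have hρt : tsupport ρ = closedBall 0 r := b.tsupport_normed_eq
  have hρsup : ∀ x, ρ x ≠ 0 → ‖x‖ ≤ r := by
    intro x hx
    have : x ∈ tsupport ρ := subset_tsupport _ hx
    rw [hρt] at this
    simpa using this
  have hρd : ∀ x, fderiv ℝ ρ x ≠ 0 → ‖x‖ ≤ r := by
    intro x hx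
    have : x ∈ tsupport ρ := support_fderiv_subset ℝ hx
    rw [hρt] at this
    simpa using this
  have hinK : ∀ p ∈ S, ∀ y, ‖p - y‖ ≤ r → y ∈ K := by
    intro p hp y hy
    refine mem_cthickening_of_dist_le y p δ S hp ?_
    rw [dist_comm, dist_eq_norm]
    exact hy.trans hrδ.le
  have hSK : S ⊆ K := self_subset_cthickening S
  let L : ℝ →L[ℝ] (E d →L[ℝ] ℝ) →L[ℝ] (E d →L[ℝ] ℝ) := ContinuousLinearMap.lsmul ℝ ℝ
  refine ⟨ρ ⋆[L, volume] at', hρc.contDiff_convolution_left L hρs hli, ?_, ?_⟩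
  · intro p hp
    have h3 : dist ((ρ ⋆[L, volume] at') p) (at' p) ≤ ε := by
      refine b.dist_normed_convolution_le hli.aestronglyMeasurable ?_
      intro x hx
      have hx' : dist x p < r := hx
      have hxK : x ∈ K := hinK p hp x (by rw [← dist_eq_norm, dist_comm]; exact hx'.le)
      rw [hat, indicator_of_mem hxK, indicator_of_mem (hSK hp)]
      exact (h1 p hp x (hx'.trans hrr1)).2.le
    rw [hat, indicator_of_mem (hSK hp)] at h3
    rwa [← dist_eq_norm]
  · intro p hp v
    set w := Jm p v with hw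
    -- the test function
    let φ : E d → ℝ := fun y => ρ (p - y)
    have hφs : ContDiff ℝ ∞ φ := hρs.comp (contDiff_const.sub contDiff_id)
    have hφsup : ∀ y, φ y ≠ 0 → ‖p - y‖ ≤ r := fun y hy => hρsup _ hy
    have hsubc : Function.support φ ⊆ closedBall p r := by
      intro y hy
      rw [mem_closedBall, dist_comm, dist_eq_norm]
      exact hφsup y hy
    have htsc : tsupport φ ⊆ closedBall p r := closure_minimal hsubc isClosed_closedBall
    have hφc : HasCompactSupport φ := (isCompact_closedBall p r).of_isClosed_subset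
      (isClosed_tsupport φ) htsc
    have hφU : tsupport φ ⊆ U := fun y hy => hδU (hinK p hp y (by
      have := htsc hy
      rwa [mem_closedBall, dist_comm, dist_eq_norm] at this))
    have hφd : ∀ y u, fderiv ℝ φ y u = - fderiv ℝ ρ (p - y) u := by
      intro y u
      have e1 : HasFDerivAt φ ((fderiv ℝ ρ (p - y)).comp (0 - ContinuousLinearMap.id ℝ (E d))) y :=
        ((hρs.differentiable (by simp)) (p - y)).hasFDerivAt.comp y
          ((hasFDerivAt_const p y).sub (hasFDerivAt_id y))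
      rw [e1.fderiv]
      simp
    have hφi : ∫ y, φ y = 1 := by
      have := integral_sub_left_eq_self (fun y => ρ y) volume p
      exact this.trans hρi
    have hwk := hW φ hφs hφc hφU (fun y => hρ0 _) p (hSU hp) v
    rw [hφi, mul_one, ← hw] at hwk
    -- derivatives of the mollification
    have hder : ∀ u z : E d, fderiv ℝ (ρ ⋆[L, volume] at') p u z =
        ∫ y, fderiv ℝ ρ (p - y) u * at' y z := by
      intro u z
      obtain ⟨k1, k2⟩ := conv_der hρs hρc hli p u
      have k3 : fderiv ℝ (ρ ⋆[L, volume] at') p u = ∫ y, fderiv ℝ ρ (p - y) u • at' y := k2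
      rw [k3, ContinuousLinearMap.integral_apply k1]
      rfl
    -- comparison of the integrals
    have hK2 : ∀ (y u z : E d), fderiv ℝ ρ (p - y) u * at' y z = fderiv ℝ ρ (p - y) u * a y z := by
      intro y u z
      by_cases h0 : fderiv ℝ ρ (p - y) = 0
      · rw [h0]; simp
      · rw [hat, indicator_of_mem (hinK p hp y (hρd _ h0))]
    have hint : ∀ u z : E d, Integrable (fun y => fderiv ℝ ρ (p - y) u * at' y z) volume :=
      fun u z => (conv_der hρs hρc hli p u).1.apply_continuousLinearMap z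
    have hints : Integrable (fun y => φ y * s y ![v, w]) volume := by
      have e1 : ContinuousOn (fun y => s y ![v, w]) K := by
        have := (ContinuousAlternatingMap.apply ℝ (E d) ℝ ![v, w]).continuous
        exact this.comp_continuousOn (hs.mono hδU)
      have h5 : IntegrableOn (fun y => φ y * s y ![v, w]) K volume :=
        (e1.integrableOn_compact hKc).continuousOn_mul hφs.continuous.continuousOn hKc
      refine (integrableOn_iff_integrable_of_support_subset ?_).1 h5
      intro y hy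
      refine hinK p hp y (hφsup y ?_)
      intro h0
      apply hy
      change φ y * s y ![v, w] = 0
      rw [h0, zero_mul]
    have hφint : Integrable φ volume := hφs.continuous.integrable_of_hasCompactSupport hφc
    have hsplit : ∫ y, (φ y * s y ![v, w] + (fderiv ℝ φ y w * a y v - fderiv ℝ φ y v * a y w)) =
        (∫ y, φ y * s y ![v, w]) + ((fderiv ℝ (ρ ⋆[L, volume] at') p v w) -
          fderiv ℝ (ρ ⋆[L, volume] at') p w v) := by
      have hsub : Integrable (fun y => fderiv ℝ ρ (p - y) v * at' y w -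
          fderiv ℝ ρ (p - y) w * at' y v) volume := (hint v w).sub (hint w v)
      rw [hder, hder, ← integral_sub (hint v w) (hint w v), ← integral_add hints hsub]
      refine integral_congr_ae (Eventually.of_forall fun y => ?_)
      simp only
      rw [hφd, hφd, hK2, hK2]
      ring
    rw [hsplit] at hwk
    have hsm : (∫ y, φ y * s y ![v, w]) ≤ s p ![v, w] + ε * ‖v‖ ^ 2 := by
      have e1 : (∫ y, φ y * s y ![v, w]) ≤ ∫ y, φ y * (s p ![v, w] + ε * ‖v‖ ^ 2) := by
        refine integral_mono hints (hφint.mul_const _) fun y => ?_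
        by_cases h0 : φ y = 0
        · simp [h0]
        refine mul_le_mul_of_nonneg_left ?_ (hρ0 _)
        have h6 := (h2 p hp y (by
          rw [dist_comm, dist_eq_norm]; exact (hφsup y h0).trans_lt hrr2)).2
        have h7 : |s y ![v, w] - s p ![v, w]| ≤ ε / B' * ‖v‖ * ‖w‖ := by
          have := alt_bound (s y - s p) v w
          rw [dist_eq_norm] at h6
          have h8 : (s y - s p) ![v, w] = s y ![v, w] - s p ![v, w] := rfl
          rw [h8] at this
          exact this.trans (mul_le_mul_of_nonneg_right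
            (mul_le_mul_of_nonneg_right h6.le (norm_nonneg _)) (norm_nonneg _))
        have h9 : ε / B' * ‖v‖ * ‖w‖ ≤ ε * ‖v‖ ^ 2 := by
          have h10 : ‖w‖ ≤ B' * ‖v‖ := hJB p hp v
          calc ε / B' * ‖v‖ * ‖w‖ ≤ ε / B' * ‖v‖ * (B' * ‖v‖) :=
                mul_le_mul_of_nonneg_left h10 (by positivity)
            _ = ε * ‖v‖ ^ 2 := by field_simp
        have := (abs_le.1 h7).2
        linarith
      rw [integral_mul_const, hφi, one_mul] at e1
      exact e1
    have : (c - ε) * ‖v‖ ^ 2 = c * ‖v‖ ^ 2 - ε * ‖v‖ ^ 2 := by ring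
    rw [this]
    linarith

end Pool.Agent.X169.WT
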