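import Pool.Agent.Y501.SY.Final
import Pool.Agent.X169.WT.Mol

/-!
Forms, almost complex structures and smooth functions in charts.
-/

set_option autoImplicit false

open Set Filter Topology MeasureTheory
open scoped Manifold ContDiff

noncomputable section

namespace Pool.Agent.X169.WT

open Pool.Agent.Y501.SY (Form End pb IsSmooth IsD IsClosedForm inChart IsAlmostComplex TamesAt
  SmoothFun dd fdg dfdg hdfdg Pair S_GEN)

section

variable {d : ℕ} {X : Type} [TopologicalSpace X] [ChartedSpace (E d) X]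

/-- the derivative of the chart at `i` -/
def D (i x : X) : E d →L[ℝ] E d := mfderiv (𝓡 d) (𝓡 d) (chartAt (E d) i) x

variable [IsManifold (𝓡 d) ∞ X]

theorem D_eq {i x : X} (hx : x ∈ (chartAt (E d) i).source) (v : E d) :
    D i x v = tangentCoordChange (𝓡 d) x i x v := by
  have h := mfderiv_chartAt_eq_tangentCoordChange (I := 𝓡 d) (x := x) (y := i) hx
  exact congrArg (fun L : E d →L[ℝ] E d => L v) h

theorem A_D {i x : X} (hx : x ∈ (chartAt (E d) i).source) (v : E d) :
    Pool.Agent.Y455.SY.A i (chartAt (E d) i x) (D i x v) = v := by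
  have h := Pool.Agent.Y455.SY.AB i ((chartAt (E d) i).map_source hx) v
  have h2 : Pool.Agent.Y455.SY.B i (chartAt (E d) i x) = D i x := by
    change D i ((chartAt (E d) i).symm (chartAt (E d) i x)) = D i x
    rw [(chartAt (E d) i).left_inv hx]
  rwa [h2] at h

theorem D_ne {i x : X} (hx : x ∈ (chartAt (E d) i).source) {v : E d} (hv : v ≠ 0) :
    D i x v ≠ 0 := by
  intro h
  have := A_D hx v
  rw [h, map_zero] at this
  exact hv this.symm

theorem pb2 (σ : Form d X 2) {i x : X} (hx : x ∈ (chartAt (E d) i).source) (v w : E d) :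
    (σ x ![v, w] : ℝ) = pb (chartAt (E d) i).symm σ (chartAt (E d) i x) ![D i x v, D i x w] := by
  have h1 : ∀ p a b : E d, pb (chartAt (E d) i).symm σ p ![a, b] =
      (fun (z : X) (a b : E d) => (σ z ![a, b] : ℝ)) ((chartAt (E d) i).symm p)
        (Pool.Agent.Y455.SY.A i p a) (Pool.Agent.Y455.SY.A i p b) := by
    intro p a b
    refine congrArg (fun m : Fin 2 → E d => (σ ((chartAt (E d) i).symm p) m : ℝ)) ?_
    funext j
    fin_cases j <;> rfl
  rw [h1, A_D hx, A_D hx, (chartAt (E d) i).left_inv hx]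

theorem pb1 (α : Form d X 1) {i x : X} (hx : x ∈ (chartAt (E d) i).source) (v : E d) :
    (α x ![v] : ℝ) = pb (chartAt (E d) i).symm α (chartAt (E d) i x) ![D i x v] := by
  have h1 : ∀ p a : E d, pb (chartAt (E d) i).symm α p ![a] =
      (fun (z : X) (a : E d) => (α z ![a] : ℝ)) ((chartAt (E d) i).symm p)
        (Pool.Agent.Y455.SY.A i p a) := by
    intro p a
    refine congrArg (fun m : Fin 1 → E d => (α ((chartAt (E d) i).symm p) m : ℝ)) ?_
    funext j
    fin_cases j; rfl
  rw [h1, A_D hx, (chartAt (E d) i).left_inv hx]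

theorem J_D (J : End d X) {i x : X} (hx : x ∈ (chartAt (E d) i).source) (v : E d) :
    inChart J i (chartAt (E d) i x) (D i x v) = D i x (J x v) := by
  have h1 : ∀ p u : E d, inChart J i p u = (fun (z : X) (a : E d) => D i z (J z a))
      ((chartAt (E d) i).symm p) (Pool.Agent.Y455.SY.A i p u) := fun p u => rfl
  rw [h1, A_D hx, (chartAt (E d) i).left_inv hx]

/-- transition between the derivatives of two charts -/
theorem D_trans (k i : X) {x : X} (hk : x ∈ (chartAt (E d) k).source)
    (hi : x ∈ (chartAt (E d) i).source) :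
    ∃ C : ℝ, 0 < C ∧ ∀ᶠ y in 𝓝 x, y ∈ (chartAt (E d) k).source ∧ y ∈ (chartAt (E d) i).source ∧
      ∀ v : E d, ‖D i y v‖ ≤ C * ‖D k y v‖ := by
  have hk' : (chartAt (E d) k).source ∈ 𝓝 x := (chartAt (E d) k).open_source.mem_nhds hk
  have hi' : (chartAt (E d) i).source ∈ 𝓝 x := (chartAt (E d) i).open_source.mem_nhds hi
  have hc : ContinuousAt (fun y => ‖(tangentCoordChange (𝓡 d) k i y : E d →L[ℝ] E d)‖) x := by
    have h1 := continuousOn_tangentCoordChange (I := 𝓡 d) k i
    rw [extChartAt_source, extChartAt_source] at h1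
    exact (h1.continuousAt (Filter.inter_mem hk' hi')).norm
  refine ⟨‖(tangentCoordChange (𝓡 d) k i x : E d →L[ℝ] E d)‖ + 1, by positivity, ?_⟩
  have h2 := hc.eventually (gt_mem_nhds (lt_add_one _))
  filter_upwards [hk', hi', h2] with y hy1 hy2 hy3
  refine ⟨hy1, hy2, fun v => ?_⟩
  have h3 : D i y v = tangentCoordChange (𝓡 d) k i y (D k y v) := by
    rw [D_eq hy2, D_eq hy1]
    refine (tangentCoordChange_comp ⟨⟨?_, ?_⟩, ?_⟩).symm
    · exact mem_extChartAt_source y
    · rw [extChartAt_source]; exact hy1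
    · rw [extChartAt_source]; exact hy2
  rw [h3]
  exact (ContinuousLinearMap.le_opNorm _ _).trans
    (mul_le_mul_of_nonneg_right hy3.le (norm_nonneg _))

/-- a function cut off in a chart -/
theorem cut_smooth (i : X) {u : X → ℝ} (hu : SmoothFun (d := d) u)
    (hs : tsupport u ⊆ (chartAt (E d) i).source) {h : E d → ℝ} (hh : ContDiff ℝ ∞ h) :
    SmoothFun (d := d) (fun x => u x * h (chartAt (E d) i x)) := by
  refine contMDiff_of_tsupport fun x hx => ?_
  have hx' : x ∈ (chartAt (E d) i).source := hs ((tsupport_mul_subset_left) hx)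
  have h1 : ContMDiffAt (𝓡 d) (𝓡 d) ∞ (chartAt (E d) i) x :=
    (contMDiffOn_chart (I := 𝓡 d)).contMDiffAt ((chartAt (E d) i).open_source.mem_nhds hx')
  exact (hu x).mul (hh.contMDiff.contMDiffAt.comp x h1)

theorem cut_dd (i : X) {u : X → ℝ} (hu : SmoothFun (d := d) u) {h : E d → ℝ}
    (hh : ContDiff ℝ ∞ h) {x : X} (hx : x ∈ (chartAt (E d) i).source) (v : E d) :
    dd (d := d) (fun y => u y * h (chartAt (E d) i y)) x v =
      u x * fderiv ℝ h (chartAt (E d) i x) (D i x v) + h (chartAt (E d) i x) * dd (d := d) u x v := by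
  have h1 : MDifferentiableAt (𝓡 d) (𝓡 d) (chartAt (E d) i) x :=
    mdifferentiableAt_atlas (chart_mem_atlas (E d) i) hx
  have h2 : HasMFDerivAt (𝓡 d) 𝓘(ℝ, ℝ) h (chartAt (E d) i x)
      (fderiv ℝ h (chartAt (E d) i x)) :=
    ((hh.differentiable (by simp)) _).hasFDerivAt.hasMFDerivAt
  have h3 := h2.comp x h1.hasMFDerivAt
  have h4 := (((hu x).mdifferentiableAt (by simp)).hasMFDerivAt.mul h3).mfderiv
  have h5 := congrArg (fun L => L v) h4
  exact h5

theorem dd_off {u : X → ℝ} {x : X} (hx : x ∉ tsupport u) (v : E d) :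
    dd (d := d) u x v = 0 := by
  have h : u =ᶠ[𝓝 x] fun _ => 0 := notMem_tsupport_iff_eventuallyEq.1 hx
  unfold dd
  rw [h.mfderiv_eq, mfderiv_const]
  rfl

end

end Pool.Agent.X169.WT
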