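import Pool.Agent.X169.WT.Main

/-!
The regularisation theorem.
-/

set_option autoImplicit false

open Set Filter Topology MeasureTheory
open scoped Manifold ContDiff

noncomputable section

namespace Pool.Agent.X169.WT

open Pool.Agent.Y501.SY (Form End pb IsSmooth IsD IsClosedForm inChart IsAlmostComplex TamesAt
  SmoothFun dd fdg dfdg hdfdg Pair S_GEN)

section

variable {d : ℕ} {X : Type} [TopologicalSpace X] [ChartedSpace (E d) X]
  [IsManifold (𝓡 d) ∞ X]

/-- the piece of the form in one chart -/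
theorem piece {i x : X} {χ θ : X → ℝ} (hχ : SmoothFun (d := d) χ) (hθ : SmoothFun (d := d) θ)
    (hχt : tsupport χ ⊆ (chartAt (E d) i).source)
    (hθ1 : ∀ y ∈ tsupport χ, ∀ᶠ z in 𝓝 y, θ z = 1)
    {A : E d → (E d →L[ℝ] ℝ)} (hA : ContDiff ℝ ∞ A) (hx : x ∈ tsupport χ) (v w : E d) :
    ∑ j, dfdg (d := d) (fun y => χ y * A (chartAt (E d) i y) (EuclideanSpace.single j (1 : ℝ)))
      (fun y => θ y * (chartAt (E d) i y) j) x ![v, w] =
    χ x * (fderiv ℝ A (chartAt (E d) i x) (D i x v) (D i x w) -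
      fderiv ℝ A (chartAt (E d) i x) (D i x w) (D i x v)) +
    (dd (d := d) χ x v * A (chartAt (E d) i x) (D i x w) -
      dd (d := d) χ x w * A (chartAt (E d) i x) (D i x v)) := by
  have hxs := hχt hx
  have hAj : ∀ j : Fin d, ContDiff ℝ ∞ (fun y => A y (EuclideanSpace.single j (1 : ℝ))) :=
    fun j => hA.clm_apply contDiff_const
  have hfd : ∀ (j : Fin d) (u : E d), fderiv ℝ (fun y => A y (EuclideanSpace.single j (1 : ℝ)))
      (chartAt (E d) i x) u = fderiv ℝ A (chartAt (E d) i x) u (EuclideanSpace.single j (1:ℝ)) := by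
    intro j u
    have h1 := ((hA.differentiable (by simp)) (chartAt (E d) i x)).hasFDerivAt
    have h2 := h1.clm_apply (hasFDerivAt_const (EuclideanSpace.single j (1 : ℝ) : E d)
      (chartAt (E d) i x))
    rw [h2.fderiv]
    simp
  have hF : ∀ (j : Fin d) (u : E d), dd (d := d) (fun y => χ y *
      A (chartAt (E d) i y) (EuclideanSpace.single j (1 : ℝ))) x u =
      χ x * fderiv ℝ A (chartAt (E d) i x) (D i x u) (EuclideanSpace.single j (1 : ℝ)) +
      A (chartAt (E d) i x) (EuclideanSpace.single j (1 : ℝ)) * dd (d := d) χ x u := by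
    intro j u
    have := cut_dd i hχ (hAj j) hxs u
    rw [hfd] at this
    exact this
  have hpj : ∀ j : Fin d, ContDiff ℝ ∞ (fun y : E d => y j) := fun j =>
    (EuclideanSpace.proj (𝕜 := ℝ) j : E d →L[ℝ] ℝ).contDiff
  have hG : ∀ (j : Fin d) (u : E d), dd (d := d) (fun y => θ y * (chartAt (E d) i y) j) x u =
      (D i x u) j := by
    intro j u
    have h1 := cut_dd i hθ (hpj j) hxs u
    have h2 : dd (d := d) θ x u = 0 :=
      Pool.Agent.Y501.SY.dd_eventually_const (hθ1 x hx) u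
    have h3 : θ x = 1 := (hθ1 x hx).self_of_nhds
    have h4 : fderiv ℝ (fun y : E d => y j) (chartAt (E d) i x) (D i x u) = (D i x u) j := by
      have : HasFDerivAt (fun y : E d => y j) (EuclideanSpace.proj (𝕜 := ℝ) j : E d →L[ℝ] ℝ)
          (chartAt (E d) i x) := (EuclideanSpace.proj (𝕜 := ℝ) j : E d →L[ℝ] ℝ).hasFDerivAt
      rw [this.fderiv]
      rfl
    rw [h2, h3, h4, one_mul, mul_zero, add_zero] at h1
    exact h1
  have e1 := basis_sum (fderiv ℝ A (chartAt (E d) i x) (D i x v)) (D i x w)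
  have e2 := basis_sum (fderiv ℝ A (chartAt (E d) i x) (D i x w)) (D i x v)
  have e3 := basis_sum (A (chartAt (E d) i x)) (D i x w)
  have e4 := basis_sum (A (chartAt (E d) i x)) (D i x v)
  rw [← e1, ← e2, ← e3, ← e4, ← Finset.sum_sub_distrib, Finset.mul_sum, Finset.mul_sum,
    Finset.mul_sum, ← Finset.sum_sub_distrib, ← Finset.sum_add_distrib]
  refine Finset.sum_congr rfl fun j _ => ?_
  have e5 := Pool.Agent.Y501.SY.dfdg_apply (d := d) (fun y => χ y *
      A (chartAt (E d) i y) (EuclideanSpace.single j (1 : ℝ)))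
      (fun y => θ y * (chartAt (E d) i y) j) x v w
  refine e5.trans ?_
  rw [hF, hF, hG, hG]
  ring

variable [CompactSpace X] [T2Space X]

theorem glueForms {ι : Type} [Fintype ι] {J : End d X} (hJ : IsAlmostComplex J)
    {σ : Form d X 2} (hσ : IsSmooth σ) {α : Form d X 1} (hα : ContForm α)
    (c : ι → X) (U : ι → Set (E d)) (hU : ∀ i, IsOpen (U i))
    (hUt : ∀ i, U i ⊆ (chartAt (E d) (c i)).target) (κ : ι → ℝ)
    (hW : ∀ i, Wk (U i) (pb (chartAt (E d) (c i)).symm σ) (af α (c i)) (inChart J (c i)) (κ i))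
    (χ : ι → X → ℝ) (hχs : ∀ i, SmoothFun (d := d) (χ i)) (hχ0 : ∀ i x, 0 ≤ χ i x)
    (hχ1 : ∀ x, ∑ i, χ i x = 1)
    (hχO : ∀ i, tsupport (χ i) ⊆ (chartAt (E d) (c i)).source ∩ chartAt (E d) (c i) ⁻¹' U i)
    {δ : ℝ} (hδ : 0 < δ) :
    ∃ (β : Form d X 1) (η : Form d X 2), Pair β η ∧ ∀ (x : X) (v : E d),
      ∑ i, χ i x * (κ i * ‖D (c i) x v‖ ^ 2) - δ * ∑ i, χ i x * ‖D (c i) x v‖ ^ 2 ≤
        ((σ + η) x ![v, J x v] : ℝ) := by
  classical
  let O : ι → Set X := fun i => (chartAt (E d) (c i)).source ∩ chartAt (E d) (c i) ⁻¹' U i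
  have hO : ∀ i, IsOpen (O i) := fun i => (chartAt (E d) (c i)).isOpen_inter_preimage (hU i)
  have hχt : ∀ i, tsupport (χ i) ⊆ (chartAt (E d) (c i)).source := fun i =>
    (hχO i).trans inter_subset_left
  have hTc : ∀ i, IsCompact (tsupport (χ i)) := fun i => (isClosed_tsupport _).isCompact
  -- cut-off functions
  have hθ : ∀ i, ∃ θ : X → ℝ, SmoothFun (d := d) θ ∧
      (∀ y ∈ tsupport (χ i), ∀ᶠ z in 𝓝 y, θ z = 1) ∧
      tsupport θ ⊆ (chartAt (E d) (c i)).source := by
    intro i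
    obtain ⟨g, g0, g1, -⟩ := exists_contMDiffMap_zero_one_nhds_of_isClosed (𝓡 d) (n := (⊤ : ℕ∞))
      (hO i).isClosed_compl (isClosed_tsupport (χ i))
      (disjoint_left.2 fun x hx hx' => hx (hχO i hx'))
    refine ⟨g, g.contMDiff, fun y hy => ?_, fun x hx => ?_⟩
    · exact (eventually_nhdsSet_iff_forall.1 g1) y hy
    · by_contra hxs
      have hxO : x ∈ (O i)ᶜ := fun h => hxs h.1
      have h0 := (eventually_nhdsSet_iff_forall.1 g0) x hxO
      exact (notMem_tsupport_iff_eventuallyEq.2 h0) hx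
  choose θ hθs hθ1 hθt using hθ
  -- compact sets in the charts
  let S : ι → Set (E d) := fun i => chartAt (E d) (c i) '' tsupport (χ i)
  have hS : ∀ i, IsCompact (S i) := fun i => (hTc i).image_of_continuousOn
    ((chartAt (E d) (c i)).continuousOn.mono (hχt i))
  have hSU : ∀ i, S i ⊆ U i := by
    rintro i _ ⟨x, hx, rfl⟩
    exact (hχO i hx).2
  have hSt : ∀ i, S i ⊆ (chartAt (E d) (c i)).target := fun i => (hSU i).trans (hUt i)
  -- constants
  obtain ⟨M, hM, hcomp⟩ := compare c χ hχs hχ0 hχ1 hχt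
  have hL : ∀ i, ∃ L : ℝ, 0 ≤ L ∧ ∀ x ∈ tsupport (χ i), ∀ v : E d,
      |dd (d := d) (χ i) x v| ≤ L * ‖D (c i) x v‖ := fun i =>
    dd_bound (c i) (hχs i) (hTc i) (hχt i)
  choose L hL0 hLb using hL
  have hB : ∀ i, ∃ B : ℝ, 0 ≤ B ∧ ∀ p ∈ S i, ∀ v : E d, ‖inChart J (c i) p v‖ ≤ B * ‖v‖ := by
    intro i
    obtain ⟨B, hB⟩ := (hS i).exists_bound_of_continuousOn ((hJ.cont (c i)).mono (hSt i))
    exact ⟨|B|, abs_nonneg B, fun p hp v => ((inChart J (c i) p).le_opNorm v).trans
      (mul_le_mul_of_nonneg_right ((hB p hp).trans (le_abs_self B)) (norm_nonneg _))⟩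
  choose B hB0 hBb using hB
  set Λ : ℝ := ∑ i, 2 * L i * B i with hΛ
  have hΛ0 : 0 ≤ Λ := Finset.sum_nonneg fun i _ => by
    have := hL0 i; have := hB0 i; positivity
  set ε : ℝ := δ / (1 + Λ * M) with hε
  have hden : 0 < 1 + Λ * M := by positivity
  have hε0 : 0 < ε := by positivity
  -- mollification
  have hmol := fun i => moll (hU i) (hS i) (hSU i) ((s_cont hσ (c i)).mono (hUt i))
    ((af_cont hα (c i)).mono (hUt i)) ((hJ.cont (c i)).mono (hUt i)) (hW i) hε0
  choose A hAs hAa hAw using hmol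
  let F : ι → Fin d → X → ℝ := fun i j y =>
    χ i y * A i (chartAt (E d) (c i) y) (EuclideanSpace.single j (1 : ℝ))
  let G : ι → Fin d → X → ℝ := fun i j y => θ i y * (chartAt (E d) (c i) y) j
  have hFs : ∀ i j, SmoothFun (d := d) (F i j) := fun i j =>
    cut_smooth (c i) (hχs i) (hχt i) ((hAs i).clm_apply contDiff_const)
  have hGs : ∀ i j, SmoothFun (d := d) (G i j) := fun i j =>
    cut_smooth (c i) (hθs i) (hθt i)
      (h := fun y : E d => y j) (EuclideanSpace.proj (𝕜 := ℝ) j : E d →L[ℝ] ℝ).contDiff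
  refine ⟨∑ i, ∑ j, fdg (F i j) (G i j), ∑ i, ∑ j, dfdg (F i j) (G i j),
    Pair.sum _ fun i _ => Pair.sum _ fun j _ => Pair.gen _ _ (hFs i j) (hGs i j), ?_⟩
  intro x v
  set w : E d := J x v with hw
  set q : ℝ := ∑ k, χ k x * ‖D (c k) x v‖ ^ 2 with hq
  have hq0 : 0 ≤ q := Finset.sum_nonneg fun j _ => mul_nonneg (hχ0 j x) (sq_nonneg _)
  -- the pieces
  have hpiece : ∀ i, χ i x * ((κ i - ε) * ‖D (c i) x v‖ ^ 2) -
      (2 * L i * B i) * (ε * (M * q)) ≤
      χ i x * (σ x ![v, w] : ℝ) + (∑ j, dfdg (d := d) (F i j) (G i j)) x ![v, w] -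
        (dd (d := d) (χ i) x v * (α x ![w] : ℝ) - dd (d := d) (χ i) x w * (α x ![v] : ℝ)) := by
    intro i
    have hsum : ((∑ j, dfdg (d := d) (F i j) (G i j)) x ![v, w] : ℝ) =
        ∑ j, dfdg (d := d) (F i j) (G i j) x ![v, w] :=
      Pool.Agent.Y501.SY.sum_apply2 Finset.univ _ x ![v, w]
    by_cases hx : x ∈ tsupport (χ i)
    · have hxs := hχt i hx
      have hpS : chartAt (E d) (c i) x ∈ S i := ⟨x, hx, rfl⟩
      have e1 := piece (hχs i) (hθs i) (hχt i) (hθ1 i) (hAs i) hx v w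
      have e2 := pb2 σ hxs v w
      have e3 : (α x ![w] : ℝ) = af α (c i) (chartAt (E d) (c i) x) (D (c i) x w) := by
        rw [af_apply]; exact pb1 α hxs w
      have e4 : (α x ![v] : ℝ) = af α (c i) (chartAt (E d) (c i) x) (D (c i) x v) := by
        rw [af_apply]; exact pb1 α hxs v
      have e5 : inChart J (c i) (chartAt (E d) (c i) x) (D (c i) x v) = D (c i) x w :=
        J_D J hxs v
      have e6 := hAw i _ hpS (D (c i) x v)
      rw [e5] at e6
      have e7 := mul_le_mul_of_nonneg_left e6 (hχ0 i x)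
      have e8 : ‖D (c i) x w‖ ≤ B i * ‖D (c i) x v‖ := by
        rw [← e5]; exact hBb i _ hpS _
      have e9 : ∀ u : E d, |A i (chartAt (E d) (c i) x) u - af α (c i) (chartAt (E d) (c i) x) u| ≤
          ε * ‖u‖ := by
        intro u
        have := (A i (chartAt (E d) (c i) x) - af α (c i) (chartAt (E d) (c i) x)).le_opNorm u
        exact this.trans (mul_le_mul_of_nonneg_right (hAa i _ hpS) (norm_nonneg _))
      have e10 := hLb i x hx v
      have e11 := hLb i x hx w
      have n0 : 0 ≤ ‖D (c i) x v‖ := norm_nonneg _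
      have e12 : |dd (d := d) (χ i) x w| ≤ L i * (B i * ‖D (c i) x v‖) :=
        e11.trans (mul_le_mul_of_nonneg_left e8 (hL0 i))
      have e13 : |dd (d := d) (χ i) x v * (A i (chartAt (E d) (c i) x) (D (c i) x w) -
          af α (c i) (chartAt (E d) (c i) x) (D (c i) x w))| ≤
          (L i * ‖D (c i) x v‖) * (ε * (B i * ‖D (c i) x v‖)) := by
        rw [abs_mul]
        exact mul_le_mul e10 ((e9 _).trans (mul_le_mul_of_nonneg_left e8 hε0.le)) (abs_nonneg _)
          (mul_nonneg (hL0 i) n0)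
      have e14 : |dd (d := d) (χ i) x w * (A i (chartAt (E d) (c i) x) (D (c i) x v) -
          af α (c i) (chartAt (E d) (c i) x) (D (c i) x v))| ≤
          (L i * (B i * ‖D (c i) x v‖)) * (ε * ‖D (c i) x v‖) := by
        rw [abs_mul]
        exact mul_le_mul e12 (e9 _) (abs_nonneg _)
          (mul_nonneg (hL0 i) (mul_nonneg (hB0 i) n0))
      have e15 := hcomp x i hx v
      have e16 : (2 * L i * B i) * (ε * ‖D (c i) x v‖ ^ 2) ≤
          (2 * L i * B i) * (ε * (M * q)) := by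
        have h0 : 0 ≤ 2 * L i * B i := by
          have := hL0 i; have := hB0 i; positivity
        exact mul_le_mul_of_nonneg_left (mul_le_mul_of_nonneg_left e15 hε0.le) h0
      have e17 := (abs_le.1 e13).1
      have e18 := (abs_le.1 e14).2
      have e19 : ((∑ j, dfdg (d := d) (F i j) (G i j)) x ![v, w] : ℝ) = _ := hsum.trans e1
      rw [e19, e3, e4, e2]
      nlinarith [e7, e16, e17, e18]
    · have hx0 : χ i x = 0 := image_eq_zero_of_notMem_tsupport hx
      have hd0 : ∀ u : E d, dd (d := d) (χ i) x u = 0 := fun u => dd_off hx u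
      have hF0 : ∀ (j : Fin d) (u : E d), dd (d := d) (F i j) x u = 0 := by
        intro j u
        refine dd_off (fun h => hx ?_) u
        exact tsupport_mul_subset_left h
      have hz : ((∑ j, dfdg (d := d) (F i j) (G i j)) x ![v, w] : ℝ) = 0 := by
        rw [hsum]
        refine Finset.sum_eq_zero fun j _ => ?_
        have e5 := Pool.Agent.Y501.SY.dfdg_apply (d := d) (F i j) (G i j) x v w
        have z1 : dd (d := d) (F i j) x v = 0 := hF0 j v
        have z2 : dd (d := d) (F i j) x w = 0 := hF0 j w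
        refine e5.trans ?_
        rw [z1, z2, zero_mul, zero_mul, sub_zero]
      have y1 : dd (d := d) (χ i) x v = 0 := hd0 v
      have y2 : dd (d := d) (χ i) x w = 0 := hd0 w
      rw [hz, y1, y2, hx0]
      have : 0 ≤ (2 * L i * B i) * (ε * (M * q)) := by
        have := hL0 i; have := hB0 i; positivity
      linarith
  have hsumall := Finset.sum_le_sum fun i (_ : i ∈ (Finset.univ : Finset ι)) => hpiece i
  have hdd : ∀ u : E d, ∑ i, dd (d := d) (χ i) x u = 0 := by
    intro u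
    rw [← (dd_sum Finset.univ χ hχs x u).2]
    exact Pool.Agent.Y501.SY.dd_eventually_const (c := 1)
      (Eventually.of_forall fun y => hχ1 y) u
  have hdv : ∑ i, dd (d := d) (χ i) x v = 0 := hdd v
  have hdw : ∑ i, dd (d := d) (χ i) x w = 0 := hdd w
  rw [Finset.sum_sub_distrib, Finset.sum_sub_distrib, Finset.sum_add_distrib,
    Finset.sum_sub_distrib, ← Finset.sum_mul, ← Finset.sum_mul, ← Finset.sum_mul,
    ← Finset.sum_mul, hdv, hdw, hχ1, zero_mul, zero_mul, sub_zero, sub_zero, one_mul] at hsumall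
  have e20 : ∑ i, χ i x * ((κ i - ε) * ‖D (c i) x v‖ ^ 2) =
      ∑ i, χ i x * (κ i * ‖D (c i) x v‖ ^ 2) - ε * q := by
    rw [hq, Finset.mul_sum, ← Finset.sum_sub_distrib]
    exact Finset.sum_congr rfl fun i _ => by ring
  rw [e20, ← hΛ] at hsumall
  have e21 : ((σ + ∑ i, ∑ j, dfdg (d := d) (F i j) (G i j)) x ![v, w] : ℝ) =
      σ x ![v, w] + ∑ i, (∑ j, dfdg (d := d) (F i j) (G i j)) x ![v, w] := by
    have : ((σ + ∑ i, ∑ j, dfdg (d := d) (F i j) (G i j)) x ![v, w] : ℝ) =
      σ x ![v, w] + (∑ i, ∑ j, dfdg (d := d) (F i j) (G i j)) x ![v, w] := rfl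
    rw [this]
    congr 1
    exact Pool.Agent.Y501.SY.sum_apply2 Finset.univ _ x ![v, w]
  have e22 : ε * q + Λ * (ε * (M * q)) = δ * q := by
    have h1 : ε * q + Λ * (ε * (M * q)) = ε * (1 + Λ * M) * q := by ring
    have h2 : ε * (1 + Λ * M) = δ := by
      rw [hε]; field_simp
    rw [h1, h2]
  rw [e21]
  linarith

end

end Pool.Agent.X169.WT
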