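import Pool.Agent.X169.WT.Chart

/-!
Gluing of the mollified one-forms.
-/

set_option autoImplicit false

open Set Filter Topology MeasureTheory
open scoped Manifold ContDiff

noncomputable section

namespace Pool.Agent.X169.WT

open Pool.Agent.Y501.SY (Form End pb IsSmooth IsD IsClosedForm inChart IsAlmostComplex TamesAt
  SmoothFun dd fdg dfdg hdfdg Pair S_GEN)

theorem basis_sum {d : ℕ} (L : E d →L[ℝ] ℝ) (w : E d) :
    ∑ j, L (EuclideanSpace.single j (1 : ℝ)) * w j = L w := by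
  have h1 : w = ∑ j, w j • (EuclideanSpace.single j (1 : ℝ) : E d) := by
    ext i
    simp [Finset.sum_apply, Pi.single_apply]
  conv_rhs => rw [h1, map_sum]
  refine Finset.sum_congr rfl fun j _ => ?_
  rw [map_smul, smul_eq_mul, mul_comm]

section

variable {d : ℕ} {X : Type} [TopologicalSpace X] [ChartedSpace (E d) X]

/-- the one-form in the chart at `i`, as a function with values in the dual space -/
def af (α : Form d X 1) (i : X) (p : E d) : E d →L[ℝ] ℝ :=
  (ContinuousAlternatingMap.ofSubsingleton ℝ (E d) ℝ (0 : Fin 1)).symm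
    (pb (chartAt (E d) i).symm α p)

theorem af_apply (α : Form d X 1) (i : X) (p v : E d) :
    af α i p v = pb (chartAt (E d) i).symm α p ![v] := by
  have h : (pb (chartAt (E d) i).symm α p) = ContinuousAlternatingMap.ofSubsingleton ℝ (E d) ℝ
      (0 : Fin 1) (af α i p) := by
    unfold af
    rw [Equiv.apply_symm_apply]
  rw [h]
  rfl

/-- continuous one-forms -/
def ContForm (α : Form d X 1) : Prop :=
  ∀ (i : X) (v : E d), ContinuousOn (fun p => pb (chartAt (E d) i).symm α p ![v])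
    (chartAt (E d) i).target

theorem af_cont {α : Form d X 1} (hα : ContForm α) (i : X) :
    ContinuousOn (af α i) (chartAt (E d) i).target := by
  rw [continuousOn_clm_apply]
  intro v
  refine (hα i v).congr fun p _ => ?_
  exact af_apply α i p v

variable [IsManifold (𝓡 d) ∞ X]

theorem s_cont {σ : Form d X 2} (hσ : IsSmooth σ) (i : X) :
    ContinuousOn (pb (chartAt (E d) i).symm σ) (chartAt (E d) i).target :=
  (hσ _ _ (chartAt (E d) i).open_target contMDiffOn_chart_symm).continuousOn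

theorem dd_sum {ι : Type} (s : Finset ι) (u : ι → X → ℝ) (hu : ∀ i, SmoothFun (d := d) (u i))
    (x : X) (v : E d) :
    SmoothFun (d := d) (fun y => ∑ i ∈ s, u i y) ∧
    dd (d := d) (fun y => ∑ i ∈ s, u i y) x v = ∑ i ∈ s, dd (d := d) (u i) x v := by
  classical
  induction s using Finset.induction_on with
  | empty =>
    refine ⟨by simpa using Pool.Agent.Y501.SY.SmoothFun.const (d := d) (X := X) 0, ?_⟩
    simp only [Finset.sum_empty]
    exact Pool.Agent.Y501.SY.dd_eventually_const (Eventually.of_forall fun _ => rfl) v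
  | insert a s ha ih =>
    simp only [Finset.sum_insert ha]
    refine ⟨(hu a).add ih.1, ?_⟩
    rw [← ih.2]
    exact Pool.Agent.Y501.SY.dd_add (hu a) ih.1 x v

variable [CompactSpace X] [T2Space X]

/-- the differential of a function on a compact subset of a chart -/
theorem dd_bound (i : X) {u : X → ℝ} (hu : SmoothFun (d := d) u) {T : Set X} (hT : IsCompact T)
    (hTs : T ⊆ (chartAt (E d) i).source) :
    ∃ L : ℝ, 0 ≤ L ∧ ∀ x ∈ T, ∀ v : E d, |dd (d := d) u x v| ≤ L * ‖D i x v‖ := by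
  have h1 := (Pool.Agent.Y484.SY.t_GEN d X (fun _ => 1) (fun _ => (1:ℝ)) u contMDiff_const contMDiff_const hu).1
  have h2 : ContinuousOn (pb (chartAt (E d) i).symm (fdg (d := d) (fun _ => (1:ℝ)) u))
      (chartAt (E d) i).target :=
    (h1 _ _ (chartAt (E d) i).open_target contMDiffOn_chart_symm).continuousOn
  have hc : IsCompact (chartAt (E d) i '' T) := hT.image_of_continuousOn
    ((chartAt (E d) i).continuousOn.mono hTs)
  have hct : chartAt (E d) i '' T ⊆ (chartAt (E d) i).target := by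
    rintro _ ⟨x, hx, rfl⟩
    exact (chartAt (E d) i).map_source (hTs hx)
  obtain ⟨L, hL⟩ := hc.exists_bound_of_continuousOn (h2.mono hct)
  refine ⟨|L|, abs_nonneg L, fun x hx v => ?_⟩
  have h3 := pb1 (fdg (d := d) (fun _ => (1:ℝ)) u) (hTs hx) v
  have h4 : dd (d := d) u x v = fdg (d := d) (fun _ => (1:ℝ)) u x ![v] := by
    have := Pool.Agent.Y501.SY.fdg_apply (d := d) (fun _ : X => (1:ℝ)) u x v
    rw [one_mul] at this
    exact this.symm
  rw [h4, h3]
  have h5 := (pb (chartAt (E d) i).symm (fdg (d := d) (fun _ => (1:ℝ)) u)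
    (chartAt (E d) i x)).le_opNorm ![D i x v]
  rw [Fin.prod_univ_one] at h5
  refine (le_of_eq (Real.norm_eq_abs _).symm).trans (h5.trans ?_)
  exact mul_le_mul_of_nonneg_right ((hL _ ⟨x, hx, rfl⟩).trans (le_abs_self L)) (norm_nonneg _)

/-- comparison of the charts -/
theorem compare {ι : Type} [Fintype ι] (c : ι → X) (χ : ι → X → ℝ)
    (hχs : ∀ i, SmoothFun (d := d) (χ i)) (hχ0 : ∀ i x, 0 ≤ χ i x) (hχ1 : ∀ x, ∑ i, χ i x = 1)
    (hχt : ∀ i, tsupport (χ i) ⊆ (chartAt (E d) (c i)).source) :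
    ∃ M : ℝ, 0 < M ∧ ∀ x : X, ∀ i, x ∈ tsupport (χ i) → ∀ v : E d,
      ‖D (c i) x v‖ ^ 2 ≤ M * ∑ k, χ k x * ‖D (c k) x v‖ ^ 2 := by
  classical
  have key : ∀ x : X, ∃ M : ℝ, 0 < M ∧ ∀ᶠ y in 𝓝 x, ∀ i, y ∈ tsupport (χ i) → ∀ v : E d,
      ‖D (c i) y v‖ ^ 2 ≤ M * ∑ k, χ k y * ‖D (c k) y v‖ ^ 2 := by
    intro x
    obtain ⟨k, hk⟩ : ∃ k, 0 < χ k x := by
      by_contra h
      push Not at h
      have h1 : ∑ i, χ i x ≤ 0 := Finset.sum_nonpos fun i _ => h i
      rw [hχ1] at h1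
      linarith
    have hxk : x ∈ (chartAt (E d) (c k)).source := hχt k (subset_tsupport _ hk.ne')
    have hloc : ∀ i, ∃ C : ℝ, 0 < C ∧ ∀ᶠ y in 𝓝 x, y ∈ tsupport (χ i) → ∀ v : E d,
        ‖D (c i) y v‖ ≤ C * ‖D (c k) y v‖ := by
      intro i
      by_cases hi : x ∈ tsupport (χ i)
      · obtain ⟨C, hC, h⟩ := D_trans (c k) (c i) hxk (hχt i hi)
        exact ⟨C, hC, h.mono fun y hy _ => hy.2.2⟩
      · refine ⟨1, one_pos, ?_⟩
        filter_upwards [(isClosed_tsupport (χ i)).isOpen_compl.mem_nhds hi] with y hy h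
        exact absurd h hy
    choose C hC hC2 using hloc
    have hCs : ∀ i, C i ≤ ∑ j, C j := fun i =>
      Finset.single_le_sum (f := C) (fun j _ => (hC j).le) (Finset.mem_univ i)
    have hS0 : 0 < ∑ j, C j := (hC k).trans_le (hCs k)
    refine ⟨(∑ j, C j) ^ 2 / (χ k x / 2), by positivity, ?_⟩
    have h2 : ∀ᶠ y in 𝓝 x, χ k x / 2 < χ k y :=
      (hχs k).continuous.continuousAt.eventually (lt_mem_nhds (half_lt_self hk))
    filter_upwards [h2, eventually_all.2 hC2] with y hy1 hy2 i hi v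
    have e1 : ‖D (c i) y v‖ ≤ (∑ j, C j) * ‖D (c k) y v‖ :=
      (hy2 i hi v).trans (mul_le_mul_of_nonneg_right (hCs i) (norm_nonneg _))
    have e2 : ‖D (c i) y v‖ ^ 2 ≤ (∑ j, C j) ^ 2 * ‖D (c k) y v‖ ^ 2 := by
      rw [← mul_pow]
      exact pow_le_pow_left₀ (norm_nonneg _) e1 2
    have e3 : χ k x / 2 * ‖D (c k) y v‖ ^ 2 ≤ ∑ k, χ k y * ‖D (c k) y v‖ ^ 2 :=
      (mul_le_mul_of_nonneg_right hy1.le (sq_nonneg _)).trans
        (Finset.single_le_sum (f := fun k => χ k y * ‖D (c k) y v‖ ^ 2)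
          (fun j _ => mul_nonneg (hχ0 j y) (sq_nonneg _)) (Finset.mem_univ k))
    have e4 : (0:ℝ) < χ k x / 2 := half_pos hk
    calc ‖D (c i) y v‖ ^ 2 ≤ (∑ j, C j) ^ 2 * ‖D (c k) y v‖ ^ 2 := e2
      _ = (∑ j, C j) ^ 2 / (χ k x / 2) * (χ k x / 2 * ‖D (c k) y v‖ ^ 2) := by
          field_simp
      _ ≤ _ := mul_le_mul_of_nonneg_left e3 (by positivity)
  have hq0 : ∀ (y : X) (v : E d), 0 ≤ ∑ k, χ k y * ‖D (c k) y v‖ ^ 2 := fun y v =>
    Finset.sum_nonneg fun k _ => mul_nonneg (hχ0 k y) (sq_nonneg _)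
  have key2 : ∃ M : ℝ, 0 < M ∧ ∀ y ∈ (univ : Set X), ∀ i, y ∈ tsupport (χ i) → ∀ v : E d,
      ‖D (c i) y v‖ ^ 2 ≤ M * ∑ k, χ k y * ‖D (c k) y v‖ ^ 2 := by
    refine isCompact_univ.induction_on (p := fun T => ∃ M : ℝ, 0 < M ∧ ∀ y ∈ T, ∀ i,
      y ∈ tsupport (χ i) → ∀ v : E d,
      ‖D (c i) y v‖ ^ 2 ≤ M * ∑ k, χ k y * ‖D (c k) y v‖ ^ 2) ?_ ?_ ?_ ?_
    · exact ⟨1, one_pos, fun y hy => absurd hy (notMem_empty y)⟩
    · rintro s t hst ⟨M, hM, hp⟩
      exact ⟨M, hM, fun y hy => hp y (hst hy)⟩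
    · rintro s t ⟨M, hM, hp⟩ ⟨M', hM', hp'⟩
      refine ⟨max M M', lt_max_of_lt_left hM, ?_⟩
      rintro q (hq | hq) i hi v
      · exact (hp q hq i hi v).trans (mul_le_mul_of_nonneg_right (le_max_left _ _) (hq0 q v))
      · exact (hp' q hq i hi v).trans (mul_le_mul_of_nonneg_right (le_max_right _ _) (hq0 q v))
    · intro x _
      obtain ⟨M, hM, h⟩ := key x
      exact ⟨_, mem_nhdsWithin_of_mem_nhds h, M, hM, fun q hq => hq⟩
  obtain ⟨M, hM, h⟩ := key2
  exact ⟨M, hM, fun x => h x (mem_univ x)⟩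

end

end Pool.Agent.X169.WT
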