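import Pool.Agent.Y501.SY.Pub

/-!
Closed two-forms with a continuous primitive part: the definitions used in the statement of the
result on forms which are bounded below in the sense of distributions.
-/

set_option autoImplicit false

open Set Filter Topology MeasureTheory
open scoped Manifold ContDiff

noncomputable section

namespace Pool.Agent.X169.WTP

open Pool.Agent.Y501.SYP

/-- Lebesgue measure -/
def leb (d : ℕ) : Measure (ES d) := (volume : Measure (EuclideanSpace ℝ (Fin d)))

section

variable {d : ℕ} {X : Type} [TopologicalSpace X] [ChartedSpace (ES d) X]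

/-- A one-form is continuous if its coefficients in the charts are continuous. -/
def IsContinuousForm (α : Form (ES d) X 1) : Prop :=
  ∀ (x₀ : X) (v : ES d), ContinuousOn (fun p => pb (chartAt (ES d) x₀).symm α p ![v])
    (chartAt (ES d) x₀).target

/-- `φ` is a nonnegative test function on `U`. -/
structure TestFun (U : Set (ES d)) (φ : ES d → ℝ) : Prop where
  smooth : ContDiff ℝ ∞ φ
  compact : HasCompactSupport φ
  supp : tsupport φ ⊆ U
  nonneg : ∀ y, 0 ≤ φ y

/-- The value on the test function `φ` of the distribution `(σ - τ + dα)(v, w)`, where `v` and `w`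
are constant vector fields in the chart at `x₀`. -/
def current (σ τ : Form (ES d) X 2) (α : Form (ES d) X 1) (x₀ : X) (φ : ES d → ℝ)
    (v w : ES d) : ℝ :=
  ∫ y, (φ y * (pb (chartAt (ES d) x₀).symm σ y ![v, w] -
      pb (chartAt (ES d) x₀).symm τ y ![v, w]) +
    (fderiv ℝ φ y w * pb (chartAt (ES d) x₀).symm α y ![v] -
      fderiv ℝ φ y v * pb (chartAt (ES d) x₀).symm α y ![w])) ∂(leb d)

/-- `σ + dα ≥ τ` in the directions of `J`, in the sense of distributions: every point has a
neighbourhood `U` in the chart such that the distributions `(σ - τ + dα)(v, J_p v)` on `U` are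
nonnegative for all `p` in `U` and all constant vectors `v`. -/
def WeaklyAbove (σ τ : Form (ES d) X 2) (α : Form (ES d) X 1) (J : End (ES d) X) : Prop :=
  ∀ x₀ : X, ∃ U : Set (ES d), IsOpen U ∧ chartAt (ES d) x₀ x₀ ∈ U ∧
    U ⊆ (chartAt (ES d) x₀).target ∧ ∀ φ : ES d → ℝ, TestFun U φ → ∀ p ∈ U, ∀ v : ES d,
      0 ≤ current σ τ α x₀ φ v (inChart J x₀ p v)

/-- the points at which `τ` does not tame `J` -/
def Bad (τ : Form (ES d) X 2) (J : End (ES d) X) : Set X := {x | ¬ TamesAt τ J x}

/-- In each fibre of `f` the components of the set of the points at which `τ` does not tame `J`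
are small at all their points, relative to the vectors `v` with `τ(v, J v) ≤ 0`. -/
def SmallOnFibres {Y : Type} (τ : Form (ES d) X 2) (J : End (ES d) X) (f : X → Y) : Prop :=
  ∀ z ∈ Bad τ J, SmallAt J (connectedComponentIn (Bad τ J ∩ f ⁻¹' {f z}) z) z
    (fun v => qd τ J z v ≤ 0)

/-- the segment from `ρ` to `σ` -/
def segm (ρ σ : Form (ES d) X 2) (t : ℝ) : Form (ES d) X 2 := fun x => (1 - t) • ρ x + t • σ x

end

end Pool.Agent.X169.WTP
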